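import Mathlib
import Pool.Agent.Helper15.JC.Dec

/-!
# JD: Albanese trivial cycles, Voisin's property, decompositions

Cycles on the surfaces with function field `F` are represented by formal sums of rational places of the algebraic closure
of `F`.
-/

set_option linter.unusedSectionVars false

namespace Pool.Agent.Helper15.JD

open VC VF Function Pool.Agent.Helper21.TO Pool.Agent.Helper21.TB Pool.Agent.Helper15.GT Pool.Agent.Helper15.KP
open Pool.Agent.Helper15.JC
open Pool.Agent.Helper51.VN (Harm)

universe u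

/-- A formal combination of embeddings of `K` in the algebraic closure of `F` is invariant if it is invariant under the
automorphisms over `F`. -/
def Inv {k F K : Type u} [Field k] [Field F] [Algebra k F] [Field K] [Algebra k K]
    (c : (K →ₐ[k] AlgebraicClosure F) →₀ ℤ) : Prop :=
  ∀ e : AlgebraicClosure F ≃ₐ[k] AlgebraicClosure F, (∀ z : F, e (iF k F z) = iF k F z) →
    c.mapDomain (fun σ => (e : AlgebraicClosure F →ₐ[k] AlgebraicClosure F).comp σ) = c

/-- Albanese trivial cycles: they have degree zero, and for each curve with function field `K` and each invariant combination `c`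
of embeddings (a correspondence to the curve) the image is a principal divisor. -/
def AJA (k F : Type u) [Field k] [IsAlgClosed k] [CharZero k] [Field F] [Algebra k F]
    (a : RPl k (AlgebraicClosure F) →₀ ℤ) : Prop :=
  a.sum (fun _ c => c) = 0 ∧ ∀ (K : Type u) [Field K] [Algebra k K] (hK : IsFunctionField k K)
    (c : (K →ₐ[k] AlgebraicClosure F) →₀ ℤ), Inv c →
      (c.sum fun σ n => n • a.mapDomain (fun w => w.pl hK σ)) ∈ (curve hK).Rat

/-- Voisin's property for `n > p` for Albanese trivial cycles, for all closures of points with coordinates in `F`. -/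
def VPA (k F : Type u) [Field k] [IsAlgClosed k] [CharZero k] [Field F] [Algebra k F] (p : ℕ) : Prop :=
  ∀ (M : ℕ) (ξ : Fin M → F) (hξ : ξ ≠ 0) (n : ℕ), p < n →
    VoisinOn (proj k (van k ξ)) {b | ∃ a : RPl k (AlgebraicClosure F) →₀ ℤ, AJA k F a ∧
      b = a.mapDomain (fun w => evP ξ hξ (w.comap (iF k F)))} n

/-- [ORB] -/
def StmtOrb : Prop := ∀ (k F K : Type u) [Field k] [IsAlgClosed k] [CharZero k] [Field F] [Algebra k F] [Field K]
    [Algebra k K] (_ : IsFunctionField k K) (c : (K →ₐ[k] AlgebraicClosure F) →₀ ℤ) (_ : Inv c),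
    c ∈ AddSubgroup.closure {o : (K →ₐ[k] AlgebraicClosure F) →₀ ℤ | ∃ (N : Type u) (_ : Field N) (_ : Algebra k N)
      (i : F →ₐ[k] N) (_ : (i : F →+* N).Finite) (j : K →ₐ[k] N),
      Finite {σ : N →ₐ[k] AlgebraicClosure F // ∀ z, σ (i z) = iF k F z} ∧
      o = ∑ᶠ σ : {σ : N →ₐ[k] AlgebraicClosure F // ∀ z, σ (i z) = iF k F z}, Finsupp.single (σ.1.comp j) 1}

/-- [FAMA] -/
def StmtFamA : Prop := ∀ (k F : Type u) [Field k] [IsAlgClosed k] [CharZero k] [Field F] [Algebra k F] (m : ℕ)
    (E : Fin m → Type u) [∀ i, Field (E i)] [∀ i, Algebra k (E i)] (p : Fin m → ℕ)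
    (_ : ∀ i, VPA k (E i) (p i))
    (c : ∀ i, (E i →ₐ[k] AlgebraicClosure F) →₀ ℤ) (_ : ∀ i, Inv (c i))
    (x : ∀ i, (E i →ₐ[k] AlgebraicClosure F) → (AlgebraicClosure (E i) →ₐ[k] AlgebraicClosure F))
    (_ : ∀ i σ z, x i σ (iF k (E i) z) = σ z)
    (J : Fin m → Type u) [∀ i, Fintype (J i)] [∀ i, Nonempty (J i)]
    (ψ : ∀ i, J i → F →ₐ[k] AlgebraicClosure (E i))
    (_ : ∀ i, ∀ e : AlgebraicClosure (E i) ≃ₐ[k] AlgebraicClosure (E i),
      (∀ z : E i, e (iF k (E i) z) = iF k (E i) z) →
      ∃ π : Equiv.Perm (J i), ∀ s z, e (ψ i s z) = ψ i (π s) z)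
    (N : ℕ) (_ : 0 < N)
    (_ : ∀ u : RPl k F → k, HF k F u → ∃ L : RPl k (AlgebraicClosure F) → k,
      (∀ a, AJA k F a → Finsupp.linearCombination ℤ L a = 0) ∧
      ∀ w : RPl k (AlgebraicClosure F), (N : k) * u (w.comap (iF k F)) =
        ∑ i, (c i).sum (fun σ n => (n : k) * ∑ s, u (w.comap ((x i σ).comp (ψ i s)))) + L w),
    VPA k F (∑ i, p i)

variable {k : Type u} [Field k] [IsAlgClosed k] [CharZero k] {F : Type u} [Field F] [Algebra k F]

/-- Extension of embeddings to the algebraic closure. -/
theorem exists_xt {E A : Type u} [Field E] [Algebra k E] [Field A] [Algebra k A] [IsAlgClosed A] (σ : E →ₐ[k] A) :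
    ∃ x : AlgebraicClosure E →ₐ[k] A, ∀ z, x (iF k E z) = σ z := by
  let _ : Algebra E A := (σ : E →+* A).toAlgebra
  have : IsScalarTower k E A := IsScalarTower.of_algebraMap_eq fun c => (σ.commutes c).symm
  let f : AlgebraicClosure E →ₐ[E] A := IsAlgClosed.lift
  exact ⟨f.restrictScalars k, fun z => f.commutes z⟩

/-- Two extensions to the algebraic closure differ by an automorphism. -/
theorem exists_auto {E B : Type u} [Field E] [Algebra k E] [Field B] [Algebra k B]
    (f g : AlgebraicClosure E →ₐ[k] B) (h : ∀ z, f (iF k E z) = g (iF k E z)) :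
    ∃ α : AlgebraicClosure E ≃ₐ[k] AlgebraicClosure E, (∀ z, α (iF k E z) = iF k E z) ∧ ∀ z, f z = g (α z) := by
  classical
  have hr : ∀ z, ∃ y, g y = f z := by
    intro z
    set q := minpoly E z with hq
    have hs : (q.map (algebraMap E (AlgebraicClosure E))).Splits := IsAlgClosed.splits _
    have hq0 : q.map (algebraMap E (AlgebraicClosure E)) ≠ 0 :=
      (Polynomial.map_ne_zero_iff (algebraMap E (AlgebraicClosure E)).injective).mpr
        (minpoly.ne_zero (Algebra.IsIntegral.isIntegral z))
    have e : (g : AlgebraicClosure E →+* B).comp (algebraMap E (AlgebraicClosure E)) =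
        (f : AlgebraicClosure E →+* B).comp (algebraMap E (AlgebraicClosure E)) := by
      ext y
      exact (h y).symm
    have h1 : q.eval₂ ((g : AlgebraicClosure E →+* B).comp (algebraMap E (AlgebraicClosure E))) (f z) = 0 := by
      rw [e]
      have h2 : q.eval₂ (algebraMap E (AlgebraicClosure E)) z = 0 := minpoly.aeval E z
      have h3 := Polynomial.hom_eval₂ q (algebraMap E (AlgebraicClosure E)) (f : AlgebraicClosure E →+* B) z
      rw [h2, map_zero] at h3
      exact h3.symm
    have h2 : f z ∈ ((q.map (algebraMap E (AlgebraicClosure E))).map (g : AlgebraicClosure E →+* B)).roots := by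
      rw [Polynomial.mem_roots ((Polynomial.map_ne_zero_iff (g : AlgebraicClosure E →+* B).injective).mpr hq0),
        Polynomial.IsRoot.def, Polynomial.eval_map, Polynomial.eval₂_map]
      exact h1
    rw [hs.roots_map, Multiset.mem_map] at h2
    obtain ⟨y, -, hy⟩ := h2
    exact ⟨y, hy⟩
  choose α hα using hr
  have hα' : ∀ z y, g y = f z → α z = y := fun z y hy => g.toRingHom.injective ((hα z).trans hy.symm)
  let αh : AlgebraicClosure E →ₐ[E] AlgebraicClosure E :=
    { toFun := α
      map_one' := hα' _ _ (by rw [map_one, map_one])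
      map_mul' := fun a b => hα' _ _ (by rw [map_mul, hα, hα, map_mul])
      map_zero' := hα' _ _ (by rw [map_zero, map_zero])
      map_add' := fun a b => hα' _ _ (by rw [map_add, hα, hα, map_add])
      commutes' := fun z => hα' _ _ (h z).symm }
  have hb : Bijective αh := Algebra.IsAlgebraic.algHom_bijective αh
  let αe : AlgebraicClosure E ≃ₐ[k] AlgebraicClosure E := (AlgEquiv.ofBijective αh hb).restrictScalars k
  exact ⟨αe, fun z => αh.commutes z, fun z => (hα z).symm⟩

end Pool.Agent.Helper15.JD
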