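import Mathlib
import Pool.Agent.Helper79.JC.BC
import Pool.Agent.Helper98.JC.Pull

/-!
# JD: correspondences between curves over `K`
-/

set_option linter.unusedSectionVars false

namespace Pool.Agent.Helper15.JD

open VC VF
open Pool.Agent.Helper98.JC (push IsPull)
open Pool.Agent.Helper79.JC (BC)

universe u

section

variable {k K F₁ F₂ : Type u} [Field k] [Field K] [Algebra k K] [Field F₁] [Algebra k F₁] [Field F₂] [Algebra k F₂]
  {κ₁ : K →ₐ[k] F₁} {κ₂ : K →ₐ[k] F₂} {Ω M₁ M₂ : Type u} [Field Ω] [Algebra k Ω] [Algebra K Ω] [Field M₁]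
  [Algebra k M₁] [Algebra Ω M₁] [Field M₂] [Algebra k M₂] [Algebra Ω M₂]

/-- A correspondence from the curve `X₁` to the curve `X₂` over `K`, given by a curve `Γ` over `K` with finite morphisms to
`X₁` and `X₂`. Here `P` is the function field of `Γ` and `N` the one of `Γ_Ω`, the embeddings `a`, `b` are the
morphisms to `X₁`, `X₂` and `a'`, `b'` the ones on `Γ_Ω`. -/
structure Cr (D₁ : BC κ₁ Ω M₁) (D₂ : BC κ₂ Ω M₂) where
  P : Type u
  N : Type u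
  [fP : Field P]
  [aP : Algebra k P]
  [fN : Field N]
  [akN : Algebra k N]
  [aN : Algebra Ω N]
  [tN : IsScalarTower k Ω N]
  κ : K →ₐ[k] P
  D : BC κ Ω N
  a : F₁ →ₐ[k] P
  b : F₂ →ₐ[k] P
  ha : a.comp κ₁ = κ
  hb : b.comp κ₂ = κ
  fa : (a : F₁ →+* P).Finite
  fb : (b : F₂ →+* P).Finite
  a' : M₁ →ₐ[Ω] N
  b' : M₂ →ₐ[Ω] N
  ha' : ∀ z, a' (D₁.j z) = D.j (a z)
  hb' : ∀ z, b' (D₂.j z) = D.j (b z)

attribute [instance] Cr.fP Cr.aP Cr.fN Cr.akN Cr.aN Cr.tN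

variable {D₁ : BC κ₁ Ω M₁} {D₂ : BC κ₂ Ω M₂}

/-- The correspondence maps the divisor `A` on `X₁` (over `Ω`) to the divisor `B` on `X₂`: pull-back to `Γ`, push-forward to
`X₂`. -/
def Cr.Maps (Z : Cr D₁ D₂) (A : Place Ω M₁ →₀ ℤ) (B : Place Ω M₂ →₀ ℤ) : Prop :=
  ∃ C : Place Ω Z.N →₀ ℤ, IsPull Z.D.ff D₁.ff Z.a' A C ∧ B = push Z.D.ff D₂.ff Z.b' C

end

end Pool.Agent.Helper15.JD
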