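import Mathlib
import Pool.Agent.Helper15.GT.Ring
import Pool.Agent.Helper21.TB.Fib
import Pool.Agent.Helper15.JD.Cr

/-!
# JD: the class of function fields
-/

set_option linter.unusedSectionVars false

namespace Pool.Agent.Helper15.JD

open VC VF Pool.Agent.Helper21.TO Pool.Agent.Helper15.GT
open Pool.Agent.Helper21.TB (Fibration)
open Pool.Agent.Helper79.JC (BC)

universe u

/-- The smallest class of pairs of a field `F` over `k` and a natural number `p` with the following
properties.
* (`fib`) Let `F` be the function field of a surface with a fibration over the curve with function field `K`, of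
  genus `g`, whose generic fibre is a curve of genus one, given by the data `T`: `F` contains `K` and is the
  fixed field of the Galois group `T.G` in `T.Ω`. Let `E` be the minimal divisor on the base with
  `4 E + div a ≥ 0` and `6 E + div b ≥ 0` for the coefficients of the equation `y ^ 2 = x ^ 3 + a x + b` of the Jacobian. Then
  `(F, p)` is in the class where `p = deg E + g - 1` if `E` is not a principal divisor and `p = g` if `E` is
  a principal divisor.
* (`ruled`) If `F = K (x)` where `K` is the function field of a curve, then `(F, 0)` is in the class.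
* (`dec`) Let the finite group `G` act on `N`, let `H` and `Γ_i` be subgroups such that the sum of the elements of `H` is in the
  left ideal of the rational group ring of `G` generated by the sums of the elements of the `Γ_i`. If `F` is the fixed field of `H`
  (embedding `φ`), the `E_i` are the fixed fields of the `Γ_i` (embeddings `ψ_i`), and the pairs `(E_i, p_i)` are in the class, then
  `(F, ∑ p_i)` is in the class.
* (`jac`) Let `K` be the function field of a curve and `Ω` an algebraic closure of `K`. Let `F`, `E_i` be the function fields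
  of curves `X`, `Y_i` over `K`, let `M`, `ME_i` be the function fields of `X_Ω`, `(Y_i)_Ω`, and let `U_i` be a correspondence from
  `X` to `Y_i` and `V_i` one from `Y_i` to `X` over `K`. If `N > 0` and the divisor `N A - ∑ V_i U_i A` is principal for all
  divisors `A` of degree zero on `X_Ω`, and if the pairs `(E_i, p_i)` are in the class, then `(F, ∑ p_i)` is in the class. -/
inductive Cls (k : Type u) [Field k] [IsAlgClosed k] [CharZero k] :
    (F : Type u) → [Field F] → [Algebra k F] → ℕ → Prop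
  | fib (F K L Ω : Type u) [Field F] [Algebra k F] [Field K] [Algebra k K] [Field L] [Algebra k L]
      [Algebra K L] [IsScalarTower k K L] [Field Ω] [Algebra k Ω] [Algebra L Ω] [IsScalarTower k L Ω]
      (T : Fibration k K L Ω) (g : ℕ) (hg : IsGenus k K g) (E : Place k K →₀ ℤ)
      (h4 : ∀ P : Place k K, T.a ≠ 0 → 0 ≤ ord P.ring T.a + 4 * E P)
      (h6 : ∀ P : Place k K, T.b ≠ 0 → 0 ≤ ord P.ring T.b + 6 * E P)
      (hmin : ∀ P : Place k K, (T.a ≠ 0 ∧ ord P.ring T.a + 4 * E P < 4) ∨
        (T.b ≠ 0 ∧ ord P.ring T.b + 6 * E P < 6))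
      (κ : K →ₐ[k] F) (f : F →ₐ[k] Ω) (hκ : f.comp κ = T.j)
      (hf : ∀ z : Ω, z ∈ Set.range f ↔ ∀ σ ∈ T.G, σ z = z) (p : ℕ)
      (hp : ((¬ ∃ u : K, u ≠ 0 ∧ ∀ P : Place k K, ord P.ring u = E P) ∧ (E.sum fun _ m => m) + g = p + 1) ∨
        ((∃ u : K, u ≠ 0 ∧ ∀ P : Place k K, ord P.ring u = E P) ∧ p = g)) : Cls k F p
  | ruled (F K : Type u) [Field F] [Algebra k F] [Field K] [Algebra k K] (hK : IsFunctionField k K)
      (κ : K →ₐ[k] F) (x : F) (hx : IntermediateField.adjoin k (Set.range κ ∪ {x}) = ⊤) : Cls k F 0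
  | dec (F N : Type u) [Field F] [Algebra k F] [Field N] [Algebra k N] (G : Type u) [Group G] [Finite G]
      (ρ : G →* (N ≃ₐ[k] N)) (H : Subgroup G) (φ : F →ₐ[k] N)
      (hφ : ∀ z : N, z ∈ Set.range φ ↔ ∀ g ∈ H, ρ g z = z) (m : ℕ) (Γ : Fin m → Subgroup G)
      (hΓ : eG H ∈ Ideal.span (Set.range fun i => eG (Γ i))) (E : Fin m → Type u) [∀ i, Field (E i)]
      [∀ i, Algebra k (E i)] (ψ : ∀ i, E i →ₐ[k] N)
      (hψ : ∀ i z, z ∈ Set.range (ψ i) ↔ ∀ g ∈ Γ i, ρ g z = z) (p : Fin m → ℕ)
      (h : ∀ i, Cls k (E i) (p i)) : Cls k F (∑ i, p i)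
  | jac (F K Ω M : Type u) [Field F] [Algebra k F] [Field K] [Algebra k K] [Field Ω] [Algebra k Ω] [Algebra K Ω]
      [IsScalarTower k K Ω] [IsAlgClosed Ω] [CharZero Ω] [Algebra.IsAlgebraic K Ω] [Field M] [Algebra k M]
      [Algebra Ω M] [IsScalarTower k Ω M] (hK : IsFunctionField k K) (κ : K →ₐ[k] F) (D : BC κ Ω M) (m : ℕ)
      (E ME : Fin m → Type u) [∀ i, Field (E i)] [∀ i, Algebra k (E i)] [∀ i, Field (ME i)]
      [∀ i, Algebra k (ME i)] [∀ i, Algebra Ω (ME i)] [∀ i, IsScalarTower k Ω (ME i)] (κE : ∀ i, K →ₐ[k] E i)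
      (DE : ∀ i, BC (κE i) Ω (ME i)) (U : ∀ i, Cr D (DE i)) (V : ∀ i, Cr (DE i) D) (N : ℕ) (hN : 0 < N)
      (H : ∀ A : Place Ω M →₀ ℤ, (A.sum fun _ n => n) = 0 → ∀ (B : ∀ i, Place Ω (ME i) →₀ ℤ)
        (C : Fin m → Place Ω M →₀ ℤ), (∀ i, (U i).Maps A (B i)) → (∀ i, (V i).Maps (B i) (C i)) →
        (N : ℤ) • A - ∑ i, C i ∈ (curve D.ff).Rat)
      (p : Fin m → ℕ) (h : ∀ i, Cls k (E i) (p i)) : Cls k F (∑ i, p i)

end Pool.Agent.Helper15.JD
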