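import Mathlib
import Pool.Agent.Helper79.JC.Defs
import Pool.Agent.Helper98.JC.Pull
import Pool.Agent.Helper15.JD.Cr

/-!
# JD: correspondences between curves over `K`, definitions and statements
-/

set_option linter.unusedSectionVars false

namespace Pool.Agent.Helper15.JD

open VC VF Function Polynomial Pool.Agent.Helper21.TO Pool.Agent.Helper15.GT Pool.Agent.Helper15.KP
open Pool.Agent.Helper98.JC (cmp push IsPull)
open Pool.Agent.Helper79.JC (BC BC.iA)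
open Pool.Agent.Helper51.VN (Harm)

universe u

section

variable {k K F E : Type u} [Field k] [Field K] [Algebra k K] [Field F] [Algebra k F] [Field E] [Algebra k E]
  {κ : K →ₐ[k] F} {κE : K →ₐ[k] E} {Ω M ME : Type u} [Field Ω] [Algebra k Ω] [Algebra K Ω] [Field M]
  [Algebra k M] [Algebra Ω M] [Field ME] [Algebra k ME] [Algebra Ω ME] {D : BC κ Ω M} {DE : BC κE Ω ME}

/-- The embeddings belonging to the composite of the correspondences `U` from `X` to `Y` and `V` from `Y` to `X`. -/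
def Pr {A : Type u} [Field A] [Algebra k A] (iA : F →ₐ[k] A) (U : Cr D DE) (V : Cr DE D) : Type u :=
  Σ τ : {τ : U.P →ₐ[k] A // ∀ z : F, τ (U.a z) = iA z}, {ρ : V.P →ₐ[k] A // ∀ z : E, ρ (V.a z) = τ.1 (U.b z)}

end

/-- [HARMF] -/
def StmtHarmF : Prop := ∀ (k K F : Type u) [Field k] [IsAlgClosed k] [CharZero k] [Field K] [Algebra k K] [Field F]
    [Algebra k F] (κ : K →ₐ[k] F) (Ω M : Type u) [Field Ω] [Algebra k Ω] [Algebra K Ω] [IsScalarTower k K Ω]
    [IsAlgClosed Ω] [CharZero Ω] [Algebra.IsAlgebraic K Ω] [Field M] [Algebra k M] [Algebra Ω M]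
    [IsScalarTower k Ω M] (hK : IsFunctionField k K) (D : BC κ Ω M)
    (I : Type) [Fintype I] (c : I → ℤ) (J : I → Type u) [∀ t, Fintype (J t)]
    (σ : ∀ t, J t → F →ₐ[k] AlgebraicClosure M) (σ' : ∀ t, J t → M →ₐ[Ω] AlgebraicClosure M)
    (_ : ∀ t s z, σ' t s (D.j z) = σ t s z)
    (_ : ∀ t, ∀ e : AlgebraicClosure M ≃ₐ[k] AlgebraicClosure M, (∀ z : F, e (D.iA z) = D.iA z) →
      ∃ π : Equiv.Perm (J t), ∀ s z, e (σ t s z) = σ t (π s) z)
    (_ : ∀ x y : RPl Ω (AlgebraicClosure M),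
      ∑ t, c t • ∑ s, (Finsupp.single (x.pl D.ff (σ' t s)) (1 : ℤ) - Finsupp.single (y.pl D.ff (σ' t s)) 1) ∈
        (curve D.ff).Rat)
    (u : RPl k F → k) (_ : HF k F u),
    ∃ ν : Place k K → k, Harm hK ν ∧ ∀ w : RPl k (AlgebraicClosure M),
      ∑ t, (c t : k) * ∑ s, u (w.comap (σ t s)) = ν ((w.comap D.iA).pl hK κ)

/-- [CORM] -/
def StmtCorM : Prop := ∀ (k K F E : Type u) [Field k] [IsAlgClosed k] [CharZero k] [Field K] [Algebra k K] [Field F]
    [Algebra k F] [Field E] [Algebra k E] (κ : K →ₐ[k] F) (κE : K →ₐ[k] E) (Ω M ME : Type u) [Field Ω] [Algebra k Ω]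
    [Algebra K Ω] [IsScalarTower k K Ω] [IsAlgClosed Ω] [CharZero Ω] [Algebra.IsAlgebraic K Ω] [Field M]
    [Algebra k M] [Algebra Ω M] [IsScalarTower k Ω M] [Field ME] [Algebra k ME] [Algebra Ω ME]
    [IsScalarTower k Ω ME] (_ : IsFunctionField k K) (D : BC κ Ω M) (DE : BC κE Ω ME) (U : Cr D DE) (V : Cr DE D),
    Finite (Pr D.iA U V) ∧ ∀ (σ' : Pr D.iA U V → M →ₐ[Ω] AlgebraicClosure M)
      (_ : ∀ s z, σ' s (D.j z) = s.2.1 (V.b z)) (x y : RPl Ω (AlgebraicClosure M)),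
      ∃ B : Place Ω ME →₀ ℤ,
        U.Maps (Finsupp.single (x.pl D.ff (IsScalarTower.toAlgHom Ω M (AlgebraicClosure M))) (1 : ℤ) -
          Finsupp.single (y.pl D.ff (IsScalarTower.toAlgHom Ω M (AlgebraicClosure M))) 1) B ∧
        V.Maps B (∑ᶠ s, (Finsupp.single (x.pl D.ff (σ' s)) (1 : ℤ) - Finsupp.single (y.pl D.ff (σ' s)) 1))

end Pool.Agent.Helper15.JD
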