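import Mathlib
import Pool.Agent.Helper15.GT.RP

/-!
# JD: the map from a surface to the divisor classes of a curve given by a correspondence
-/

set_option linter.unusedSectionVars false

namespace Pool.Agent.Helper15.JD

open VC VF Pool.Agent.Helper21.TO Pool.Agent.Helper15.GT

universe u

/-- Let `N` be a finite extension of `F` (embedding `i`), containing the function field `K` of the curve `B` (embedding `j`).
Let `S` be the closure of the point `ξ`, and let `θ` map the points of `S` to divisors on `B`. This says that `θ` is the
correspondence given by `N`, pull-back to `N` and push-forward to `B`: for every place `w` of the algebraic closure of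
`F`, with residue field `k`, the divisor `θ (s)` of the center `s` of `w` is linearly equivalent to the sum of
the restrictions of `w` to `K` along the embeddings of `N` over `F` in the algebraic closure. -/
def IsCor {k F N K : Type u} [Field k] [IsAlgClosed k] [CharZero k] [Field F] [Algebra k F] [Field N] [Algebra k N]
    [Field K] [Algebra k K] (hK : IsFunctionField k K) (i : F →ₐ[k] N) (j : K →ₐ[k] N) {M : ℕ} (ξ : Fin M → F)
    (hξ : ξ ≠ 0) (θ : PPt k k (van k ξ) → Place k K →₀ ℤ) : Prop :=
  ∀ w : RPl k (AlgebraicClosure F), θ (evP ξ hξ (w.comap (IsScalarTower.toAlgHom k F (AlgebraicClosure F)))) -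
    ∑ᶠ σ : {σ : N →ₐ[k] AlgebraicClosure F // ∀ z : F, σ (i z) = algebraMap F (AlgebraicClosure F) z}, Finsupp.single (w.pl hK (σ.1.comp j)) 1 ∈
      (curve hK).Rat

end Pool.Agent.Helper15.JD
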