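import Mathlib
import Pool.Agent.Helper15.JD.Av
import Pool.Agent.Helper15.JD.Defs
import Pool.Agent.Helper15.JD.IsCor

/-!
# JD: the map to the divisor classes of a curve, statements
-/

set_option linter.unusedSectionVars false

namespace Pool.Agent.Helper15.JD

open VC VF Function Pool.Agent.Helper21.TO Pool.Agent.Helper21.TB Pool.Agent.Helper15.GT Pool.Agent.Helper15.KP
open Pool.Agent.Helper15.JC
open Pool.Agent.Helper98.JC (cmp push IsPull)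
open Pool.Agent.Helper79.JC (BC BC.iA)
open Pool.Agent.Helper51.VN (Harm)

universe u

/-- [APPLY] -/
def StmtApply : Prop := ∀ (k F : Type u) [Field k] [IsAlgClosed k] [CharZero k] [Field F] [Algebra k F] (p : ℕ)
    (_ : VPA k F p) (M : ℕ) (ξ : Fin M → F) (hξ : ξ ≠ 0) (n : ℕ) (_ : p < n)
    (a : Fin n → (proj k (van k ξ)).Cycles) (_ : ∀ l, (a l).sum (fun _ c => c) = 0)
    (_ : ∀ (N : Type u) [Field N] [Algebra k N] (i : F →ₐ[k] N) (_ : (i : F →+* N).Finite) (K : Type u) [Field K]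
      [Algebra k K] (hK : IsFunctionField k K) (j : K →ₐ[k] N), ¬ IsGenus k K 0 →
        ∃ θ : PPt k k (van k ξ) → Place k K →₀ ℤ, IsCor hK i j ξ hξ θ ∧
          ∀ l, Finsupp.linearCombination ℤ θ (a l) ∈ (curve hK).Rat),
    ∃ m : ℕ, 0 < m ∧ m • ∑ σ : Equiv.Perm (Fin n), ((Equiv.Perm.sign σ : ℤˣ) : ℤ) •
      extProd (fun i => a (σ i)) ∈ ((proj k (van k ξ)).pow n).Rat

/-- [JACA] -/
def StmtJacA : Prop := ∀ (k K F : Type u) [Field k] [IsAlgClosed k] [CharZero k] [Field K] [Algebra k K] [Field F]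
    [Algebra k F] (κ : K →ₐ[k] F) (Ω M : Type u) [Field Ω] [Algebra k Ω] [Algebra K Ω] [IsScalarTower k K Ω]
    [IsAlgClosed Ω] [CharZero Ω] [Algebra.IsAlgebraic K Ω] [Field M] [Algebra k M] [Algebra Ω M]
    [IsScalarTower k Ω M] (_ : IsFunctionField k K) (D : BC κ Ω M) (m : ℕ) (E ME : Fin m → Type u)
    [∀ i, Field (E i)] [∀ i, Algebra k (E i)] [∀ i, Field (ME i)] [∀ i, Algebra k (ME i)] [∀ i, Algebra Ω (ME i)]
    [∀ i, IsScalarTower k Ω (ME i)] (κE : ∀ i, K →ₐ[k] E i) (DE : ∀ i, BC (κE i) Ω (ME i))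
    (U : ∀ i, Cr D (DE i)) (V : ∀ i, Cr (DE i) D) (N : ℕ) (_ : 0 < N)
    (_ : ∀ A : Place Ω M →₀ ℤ, (A.sum fun _ n => n) = 0 → ∀ (B : ∀ i, Place Ω (ME i) →₀ ℤ)
      (C : Fin m → Place Ω M →₀ ℤ), (∀ i, (U i).Maps A (B i)) → (∀ i, (V i).Maps (B i) (C i)) →
      (N : ℤ) • A - ∑ i, C i ∈ (curve D.ff).Rat)
    (p : Fin m → ℕ) (_ : ∀ i, VPA k (E i) (p i)), VPA k F (∑ i, p i)

end Pool.Agent.Helper15.JD
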