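import Mathlib
import Pool.Agent.Helper15.JD.Av

/-!
# JD: Voisin's property for a field which is decomposed by correspondences
-/

set_option linter.unusedSectionVars false

namespace Pool.Agent.Helper15.JD

open VC VF Function Pool.Agent.Helper21.TO Pool.Agent.Helper21.TB Pool.Agent.Helper15.GT Pool.Agent.Helper15.KP
open Pool.Agent.Helper15.JC
open Pool.Agent.Helper51.VN (Harm)

universe u

variable {k : Type u} [Field k] [IsAlgClosed k] [CharZero k] {F : Type u} [Field F] [Algebra k F]

/-- The image of an Albanese trivial cycle under a correspondence is Albanese trivial. -/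
theorem AJA.comb {a : RPl k (AlgebraicClosure F) →₀ ℤ} (ha : AJA k F a) {E : Type u} [Field E] [Algebra k E]
    (c : (E →ₐ[k] AlgebraicClosure F) →₀ ℤ) (hc : Inv c)
    (x : (E →ₐ[k] AlgebraicClosure F) → (AlgebraicClosure E →ₐ[k] AlgebraicClosure F))
    (hx : ∀ σ z, x σ (iF k E z) = σ z) :
    AJA k E (c.sum fun σ n => n • a.mapDomain (fun w => w.comap (x σ))) := by
  classical
  refine ⟨?_, fun K _ _ hK c' hc' => ?_⟩
  · rw [Finsupp.sum]
    exact deg_sum_smul _ _ _ fun σ _ => by rw [deg_mapDomain, ha.1]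
  · set W : (E →ₐ[k] AlgebraicClosure F) → ((K →ₐ[k] AlgebraicClosure F) →₀ ℤ) := fun σ =>
      Finsupp.linearCombination ℤ (fun τ : K →ₐ[k] AlgebraicClosure E =>
        (Finsupp.single ((x σ).comp τ) 1 : (K →ₐ[k] AlgebraicClosure F) →₀ ℤ)) c' with hW
    have hinv : Inv (Finsupp.linearCombination ℤ W c) := by
      intro e he
      have h1 : ∀ σ : E →ₐ[k] AlgebraicClosure F, (W σ).mapDomain
          (fun ρ : K →ₐ[k] AlgebraicClosure F => (e : AlgebraicClosure F →ₐ[k] AlgebraicClosure F).comp ρ) =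
          W ((e : AlgebraicClosure F →ₐ[k] AlgebraicClosure F).comp σ) := by
        intro σ
        obtain ⟨α, hα, hα'⟩ := exists_auto ((e : AlgebraicClosure F →ₐ[k] AlgebraicClosure F).comp (x σ))
          (x ((e : AlgebraicClosure F →ₐ[k] AlgebraicClosure F).comp σ)) (fun z => by
            rw [hx]
            change e (x σ (iF k E z)) = e (σ z)
            rw [hx])
        have h2 : (W σ).mapDomain
            (fun ρ : K →ₐ[k] AlgebraicClosure F => (e : AlgebraicClosure F →ₐ[k] AlgebraicClosure F).comp ρ) =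
            Finsupp.linearCombination ℤ (fun τ : K →ₐ[k] AlgebraicClosure E =>
              (Finsupp.single ((x ((e : AlgebraicClosure F →ₐ[k] AlgebraicClosure F).comp σ)).comp
                ((α : AlgebraicClosure E →ₐ[k] AlgebraicClosure E).comp τ)) 1 :
                (K →ₐ[k] AlgebraicClosure F) →₀ ℤ)) c' := by
          have h3 := Finsupp.apply_linearCombination ℤ (Finsupp.lmapDomain ℤ ℤ
            (fun ρ : K →ₐ[k] AlgebraicClosure F => (e : AlgebraicClosure F →ₐ[k] AlgebraicClosure F).comp ρ))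
            (fun τ : K →ₐ[k] AlgebraicClosure E =>
              (Finsupp.single ((x σ).comp τ) 1 : (K →ₐ[k] AlgebraicClosure F) →₀ ℤ)) c'
          rw [Finsupp.lmapDomain_apply] at h3
          rw [hW]
          beta_reduce
          rw [h3]
          congr 2
          funext τ
          rw [comp_apply, Finsupp.lmapDomain_apply, Finsupp.mapDomain_single]
          congr 1
          ext z
          exact hα' (τ z)
        rw [h2, hW]
        beta_reduce
        have h4 := hc' α hα
        conv_rhs => rw [← h4]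
        rw [Finsupp.linearCombination_mapDomain]
        rfl
      have h5 := Finsupp.apply_linearCombination ℤ (Finsupp.lmapDomain ℤ ℤ
        (fun ρ : K →ₐ[k] AlgebraicClosure F => (e : AlgebraicClosure F →ₐ[k] AlgebraicClosure F).comp ρ)) W c
      rw [Finsupp.lmapDomain_apply] at h5
      rw [h5]
      have h6 : (Finsupp.lmapDomain ℤ ℤ (fun ρ : K →ₐ[k] AlgebraicClosure F =>
          (e : AlgebraicClosure F →ₐ[k] AlgebraicClosure F).comp ρ)) ∘ W =
          W ∘ fun σ => (e : AlgebraicClosure F →ₐ[k] AlgebraicClosure F).comp σ := by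
        funext σ
        rw [comp_apply, comp_apply, Finsupp.lmapDomain_apply]
        exact h1 σ
      rw [h6, ← Finsupp.linearCombination_mapDomain, hc e he]
    have h7 := ha.2 K hK _ hinv
    have e1 : ((Finsupp.linearCombination ℤ W c).sum fun σ n => n • a.mapDomain (fun w => w.pl hK σ)) =
        c.sum fun σ n => n • c'.sum fun τ m => m • a.mapDomain (fun w => w.pl hK ((x σ).comp τ)) := by
      have h8 : ((Finsupp.linearCombination ℤ W c).sum fun σ n => n • a.mapDomain (fun w => w.pl hK σ)) =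
          Finsupp.linearCombination ℤ (fun σ => a.mapDomain (fun w => w.pl hK σ)) (Finsupp.linearCombination ℤ W c) :=
        (Finsupp.linearCombination_apply ℤ _).symm
      rw [h8, Finsupp.apply_linearCombination, Finsupp.linearCombination_apply]
      refine Finsupp.sum_congr fun σ _ => ?_
      congr 1
      rw [comp_apply, hW]
      beta_reduce
      rw [Finsupp.apply_linearCombination, Finsupp.linearCombination_apply]
      refine Finsupp.sum_congr fun τ _ => ?_
      congr 1
      rw [comp_apply, Finsupp.linearCombination_single, one_smul]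
    rw [e1] at h7
    convert h7 using 1
    have e2 : ∀ τ ∈ c'.support, c' τ • (c.sum fun σ n => n • a.mapDomain (fun w => w.comap (x σ))).mapDomain
        (fun w => w.pl hK τ) = ∑ σ ∈ c.support, c σ • (c' τ • a.mapDomain (fun w => w.pl hK ((x σ).comp τ))) := by
      intro τ _
      rw [Finsupp.sum, Finsupp.mapDomain_finsetSum, Finset.smul_sum]
      refine Finset.sum_congr rfl fun σ _ => ?_
      rw [Finsupp.mapDomain_smul, ← Finsupp.mapDomain_comp, smul_comm]
      congr 3
    change ∑ τ ∈ c'.support, c' τ • (c.sum fun σ n => n • a.mapDomain (fun w => w.comap (x σ))).mapDomain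
        (fun w => w.pl hK τ) = _
    rw [Finset.sum_congr rfl e2, Finset.sum_comm]
    refine Finset.sum_congr rfl fun σ _ => ?_
    beta_reduce
    rw [Finsupp.sum, Finset.smul_sum]

private lemma lc_eq {α : Type*} {k : Type*} [Field k] (v : α → k) (a : α →₀ ℤ) :
    Finsupp.linearCombination ℤ v a = ∑ w ∈ a.support, (a w : k) * v w := by
  rw [Finsupp.linearCombination_apply, Finsupp.sum]
  refine Finset.sum_congr rfl fun w _ => ?_
  rw [zsmul_eq_mul]

/-- The model of `E` and the correspondence to the closure of the point `ξ` of `F`, given by a family of embeddings. -/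
theorem exists_modelA {E : Type u} [Field E] [Algebra k E] {J : Type u} [Fintype J] [Nonempty J]
    (ψ : J → F →ₐ[k] AlgebraicClosure E)
    (hψ : ∀ e : AlgebraicClosure E ≃ₐ[k] AlgebraicClosure E, (∀ z : E, e (iF k E z) = iF k E z) →
      ∃ π : Equiv.Perm J, ∀ s z, e (ψ s z) = ψ (π s) z) {M : ℕ}
    (ξ : Fin M → F) (hξ : ξ ≠ 0) : ∃ (M' : ℕ) (η : Fin M' → E) (hη : η ≠ 0)
      (Z : (proj k (van k η)).Pt → (proj k (van k ξ)).Cycles), Cor (proj k (van k η)) (proj k (van k ξ)) Z ∧
      ∀ v : RPl k (AlgebraicClosure E), Z (evP η hη (v.comap (iF k E))) =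
        ∑ s, Finsupp.single (evP ξ hξ (v.comap (ψ s))) 1 := by
  classical
  obtain ⟨η, hη, hcor, hev⟩ := exists_fam ψ (iF k E) ξ hξ
    (fun l => nm_mem_of_perm ψ (iF k E)
      {σ | ∀ z : E, σ (iF k E z) = iF k E z}
      (fun z hz => by
        have h1 := fixed_mem (AlgHom.id k E) (RingHom.Finite.id E) z (fun σ hσ => hz σ fun y =>
          DFunLike.congr_fun hσ y)
        exact h1) (fun σ hσ => hψ σ hσ) ξ l)
  exact ⟨_, η, hη, _, hcor, hev⟩

theorem vpa_of_fam (m : ℕ)
    (E : Fin m → Type u) [∀ i, Field (E i)] [∀ i, Algebra k (E i)] (p : Fin m → ℕ)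
    (hV : ∀ i, VPA k (E i) (p i))
    (c : ∀ i, (E i →ₐ[k] AlgebraicClosure F) →₀ ℤ) (hc : ∀ i, Inv (c i))
    (x : ∀ i, (E i →ₐ[k] AlgebraicClosure F) → (AlgebraicClosure (E i) →ₐ[k] AlgebraicClosure F))
    (hx : ∀ i σ z, x i σ (iF k (E i) z) = σ z)
    (J : Fin m → Type u) [∀ i, Fintype (J i)] [∀ i, Nonempty (J i)]
    (ψ : ∀ i, J i → F →ₐ[k] AlgebraicClosure (E i))
    (hψ : ∀ i, ∀ e : AlgebraicClosure (E i) ≃ₐ[k] AlgebraicClosure (E i),
      (∀ z : E i, e (iF k (E i) z) = iF k (E i) z) →
      ∃ π : Equiv.Perm (J i), ∀ s z, e (ψ i s z) = ψ i (π s) z)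
    (N : ℕ) (hN : 0 < N)
    (H : ∀ u : RPl k F → k, HF k F u → ∃ L : RPl k (AlgebraicClosure F) → k,
      (∀ a, AJA k F a → Finsupp.linearCombination ℤ L a = 0) ∧
      ∀ w : RPl k (AlgebraicClosure F), (N : k) * u (w.comap (iF k F)) =
        ∑ i, (c i).sum (fun σ n => (n : k) * ∑ s, u (w.comap ((x i σ).comp (ψ i s)))) + L w) :
    VPA k F (∑ i, p i) := by
  classical
  intro M ξ hξ n hn
  choose M' η hη Z hZ hev using fun i => exists_modelA (ψ i) (hψ i) ξ hξ
  refine voisinOn_dec' (S := proj k (van k ξ)) (fun K _ _ hK p => pconst K hK p)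
    (X := fun i => proj k (van k (η i))) (Z := Z) hZ
    (fun i => {b | ∃ a : RPl k (AlgebraicClosure (E i)) →₀ ℤ, AJA k (E i) a ∧
      b = a.mapDomain (fun w => evP (η i) (hη i) (w.comap (iF k (E i))))}) p
    (fun i n' hn' => hV i _ (η i) (hη i) n' hn') hn _ ?_
  rintro b ⟨a, ha, rfl⟩
  have hb : ∀ i, AJA k (E i) ((c i).sum fun σ n => n • a.mapDomain (fun w => w.comap (x i σ))) :=
    fun i => ha.comb (c i) (hc i) (x i) (hx i)
  have hB1 : ∀ i, ((c i).sum fun σ n => n • a.mapDomain (fun w => w.comap (x i σ))).mapDomain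
      (fun w => evP (η i) (hη i) (w.comap (iF k (E i)))) ∈
      {b : (proj k (van k (η i))).Cycles | ∃ a : RPl k (AlgebraicClosure (E i)) →₀ ℤ, AJA k (E i) a ∧
      b = a.mapDomain (fun w => evP (η i) (hη i) (w.comap (iF k (E i))))} := fun i => ⟨_, hb i, rfl⟩
  refine ⟨N, hN, ?_⟩
  refine ⟨fun i => ((c i).sum fun σ n => n • a.mapDomain (fun w => w.comap (x i σ))).mapDomain
    (fun w => evP (η i) (hη i) (w.comap (iF k (E i)))), ?_, ?_⟩
  · exact hB1
  intro θ hθ
  obtain ⟨L, hL, h⟩ := H (fun w => θ (evP ξ hξ w)) ⟨M, ξ, hξ, θ, hθ, fun w => rfl⟩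
  have h1 : ∀ i, Finsupp.linearCombination ℤ θ (Finsupp.linearCombination ℤ (Z i)
      (((c i).sum fun σ n => n • a.mapDomain (fun w => w.comap (x i σ))).mapDomain
        (fun w => evP (η i) (hη i) (w.comap (iF k (E i)))))) =
      Finsupp.linearCombination ℤ (fun w => (c i).sum (fun σ n => (n : k) *
        ∑ s, θ (evP ξ hξ (w.comap ((x i σ).comp (ψ i s)))))) a := by
    intro i
    rw [Finsupp.linearCombination_mapDomain, Finsupp.sum, map_sum, map_sum]
    have h2 : ∀ σ ∈ (c i).support, Finsupp.linearCombination ℤ θ (Finsupp.linearCombination ℤ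
        (Z i ∘ fun w => evP (η i) (hη i) (w.comap (iF k (E i))))
        (c i σ • a.mapDomain (fun w => w.comap (x i σ)))) =
        Finsupp.linearCombination ℤ (fun w => (c i σ : k) *
          ∑ s, θ (evP ξ hξ (w.comap ((x i σ).comp (ψ i s))))) a := by
      intro σ _
      rw [map_smul, map_smul, Finsupp.linearCombination_mapDomain, Finsupp.apply_linearCombination,
        Finsupp.linearCombination_apply, Finsupp.linearCombination_apply, Finsupp.sum, Finsupp.sum,
        Finset.smul_sum]
      refine Finset.sum_congr rfl fun w _ => ?_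
      rw [comp_apply, comp_apply, comp_apply, hev i (w.comap (x i σ)), map_sum]
      have h3 : ∀ s, Finsupp.linearCombination ℤ θ
          (Finsupp.single (evP ξ hξ ((w.comap (x i σ)).comap (ψ i s))) (1 : ℤ)) =
          θ (evP ξ hξ (w.comap ((x i σ).comp (ψ i s)))) := by
        intro s
        rw [Finsupp.linearCombination_single, one_smul, RPl.comap_comap]
      rw [Finset.sum_congr rfl fun s _ => h3 s]
      simp only [zsmul_eq_mul]
      ring
    rw [Finset.sum_congr rfl h2]
    simp only [Finsupp.linearCombination_apply, Finsupp.sum, Finset.smul_sum]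
    rw [Finset.sum_comm]
  have h4 : (N : k) * Finsupp.linearCombination ℤ θ (a.mapDomain (fun w => evP ξ hξ (w.comap (iF k F)))) =
      ∑ i, Finsupp.linearCombination ℤ (fun w => (c i).sum (fun σ n => (n : k) *
        ∑ s, θ (evP ξ hξ (w.comap ((x i σ).comp (ψ i s)))))) a + Finsupp.linearCombination ℤ L a := by
    rw [Finsupp.linearCombination_mapDomain, lc_eq, lc_eq, Finset.mul_sum,
      Finset.sum_congr rfl fun i _ => lc_eq (fun w => (c i).sum (fun σ n => (n : k) *
        ∑ s, θ (evP ξ hξ (w.comap ((x i σ).comp (ψ i s)))))) a, Finset.sum_comm, ← Finset.sum_add_distrib]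
    refine Finset.sum_congr rfl fun w _ => ?_
    have h5 := h w
    rw [comp_apply]
    calc (N : k) * ((a w : k) * θ (evP ξ hξ (w.comap (iF k F)))) =
        (a w : k) * ((N : k) * θ (evP ξ hξ (w.comap (iF k F)))) := by ring
      _ = _ := by rw [h5, mul_add, Finset.mul_sum]
  rw [map_sub, map_nsmul, nsmul_eq_mul, map_sum, Finset.sum_congr rfl fun i _ => h1 i, h4, hL a ha, add_zero, sub_self]

theorem famA : StmtFamA.{u} := fun _ _ _ _ _ _ _ m E _ _ p hV c hc x hx J _ _ ψ hψ N hN H =>
  vpa_of_fam m E p hV c hc x hx J ψ hψ N hN H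

end Pool.Agent.Helper15.JD
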